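import Pool.Agent.H410Z.JonesC

set_option autoImplicit false

namespace Pool.Agent.Results.MP_3a3191_gt.Indecomposable

open Pool.Agent.H410Z.Jones

/-- If Jones's function `T` is Vietoris continuous on the nonempty closed subsets of a Hausdorff
continuum `S` and some `T {p}` has nonempty interior, then `S` is indecomposable. -/
theorem result :
    ∀ (S : Type) [TopologicalSpace S] [CompactSpace S] [T2Space S] [ConnectedSpace S],
      @ContinuousOn (Set S) (Set S) (TopologicalSpace.vietoris S) (TopologicalSpace.vietoris S)
        (fun A : Set S => T A) {A : Set S | IsClosed A ∧ A.Nonempty} →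
      (∃ p : S, (interior (T ({p} : Set S))).Nonempty) →
      ∀ A B : Set S, IsCompact A → IsConnected A → IsCompact B → IsConnected B →
        A ∪ B = Set.univ → A = Set.univ ∨ B = Set.univ := by
  intro S _ _ _ _ h ⟨p, hp⟩ A B hA hA' hB _ hU
  exact indec (cts_of_continuousOn h) hp hA hA' hB.isClosed hU

end Pool.Agent.Results.MP_3a3191_gt.Indecomposable
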